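import Pool.Agent.helper94.LogForm

/-!
# A lower bound for `|d log 2 - i log 3|` for all integers `i`
-/

set_option autoImplicit false

namespace Pool.Agent.helper63.CL

theorem log_three_gt : (1.09 : ℝ) < Real.log 3 := by
  have h1 : (11 : ℕ) * Real.log 2 ≤ (7 : ℕ) * Real.log 3 := by
    rw [← Real.log_pow, ← Real.log_pow]
    exact Real.log_le_log (by norm_num) (by norm_num)
  have h2 := Real.log_two_gt_d9
  push_cast at h1
  -- 11 * 0.6931471803 / 7 = 1.08923
  by_contra hc
  push Not at hc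
  have h3 : (19 : ℕ) * Real.log 2 ≤ (12 : ℕ) * Real.log 3 := by
    rw [← Real.log_pow, ← Real.log_pow]
    exact Real.log_le_log (by norm_num) (by norm_num)
  push_cast at h3
  linarith

theorem log_three_lt : Real.log 3 < 1.11 := by
  have h1 : (5 : ℕ) * Real.log 3 ≤ (8 : ℕ) * Real.log 2 := by
    rw [← Real.log_pow, ← Real.log_pow]
    exact Real.log_le_log (by norm_num) (by norm_num)
  have h2 := Real.log_two_lt_d9
  push_cast at h1
  linarith

/-- The constant of the lower bound. -/
noncomputable def c0 : ℝ := 1 / (235 * 9 ^ 23)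

theorem c0_pos : 0 < c0 := by unfold c0; positivity

theorem c0_le : c0 ≤ 1 / 10 := by
  unfold c0
  exact div_le_div_of_nonneg_left (by norm_num) (by norm_num) (by norm_num)

/-- `|d log 2 - i log 3| ≥ c0 / d ^ 23`. -/
theorem form_lower {d : ℕ} (hd : 1 ≤ d) (i : ℤ) :
    c0 / (d : ℝ) ^ 23 ≤ |(d : ℝ) * Real.log 2 - i * Real.log 3| := by
  have hd1 : (1 : ℝ) ≤ d := by exact_mod_cast hd
  have l2 := Real.log_two_gt_d9
  have l2' := Real.log_two_lt_d9
  have l3 := log_three_gt
  have l3' := log_three_lt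
  have hc : c0 / (d : ℝ) ^ 23 ≤ 1 / 10 :=
    (div_le_self c0_pos.le (one_le_pow₀ hd1)).trans c0_le
  rcases le_or_gt (2 * i) d with h | h
  · refine hc.trans (le_trans ?_ (le_abs_self _))
    have h1 : (2 : ℝ) * i ≤ d := by exact_mod_cast h
    nlinarith
  rcases le_or_gt (d : ℤ) i with h' | h'
  · refine hc.trans (le_trans ?_ (neg_le_abs _))
    have h1 : (d : ℝ) ≤ i := by exact_mod_cast h'
    nlinarith
  · obtain ⟨e, he⟩ : ∃ e : ℕ, (e : ℤ) = 2 * i - d := ⟨(2 * i - d).toNat, by omega⟩
    obtain ⟨o, ho⟩ : ∃ o : ℕ, (o : ℤ) = d - i := ⟨(d - i).toNat, by omega⟩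
    have he1 : 1 ≤ e := by omega
    have h1 := Pool.Agent.helper94.log_form_lower (e := e) (o := o) he1
    have heR : (e : ℝ) = 2 * i - d := by exact_mod_cast he
    have hoR : (o : ℝ) = d - i := by exact_mod_cast ho
    have e1 : (e : ℝ) * Real.log (3 / 2) - o * Real.log (4 / 3) =
        -((d : ℝ) * Real.log 2 - i * Real.log 3) := by
      rw [heR, hoR, Real.log_div (by norm_num) (by norm_num),
        Real.log_div (by norm_num) (by norm_num),
        show (4 : ℝ) = 2 ^ 2 by norm_num, Real.log_pow]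
      push_cast
      ring
    rw [e1, abs_neg] at h1
    refine le_trans ?_ h1
    have h2 : (e : ℝ) + o ≤ d := by
      rw [heR, hoR]
      have : (i : ℝ) ≤ d := by exact_mod_cast h'.le
      linarith
    have h3 : (1 : ℝ) ≤ (e : ℝ) + o := by
      have : (1 : ℝ) ≤ e := by exact_mod_cast he1
      have : (0 : ℝ) ≤ o := Nat.cast_nonneg _
      linarith
    rw [c0, div_div, mul_assoc, ← mul_pow]
    refine div_le_div_of_nonneg_left (by norm_num) (by positivity) ?_
    gcongr

end Pool.Agent.helper63.CL
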