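import Pool.Agent.helper62.Col.Asym

/-!
# The linear form of a cycle of the 3x+1 map
-/

set_option autoImplicit false

namespace Pool.Agent.helper63.CL

open Pool.Agent.helper62.Col Function

/-- The elements of the cycle of `n`. -/
noncomputable def O (n : ℤ) : Finset ℤ := (Finset.range (minimalPeriod T n)).image fun i => T^[i] n

/-- The odd members of a set of integers. -/
def od (c : Finset ℤ) : Finset ℤ := c.filter fun m => ¬ m % 2 = 0

/-- The linear form of a finite set of integers. -/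
noncomputable def lam (c : Finset ℤ) : ℝ := c.card * Real.log 2 - (od c).card * Real.log 3

theorem T_ne_zero {m : ℤ} (h : m ≠ 0) : T m ≠ 0 := by
  by_cases hm : m % 2 = 0
  · have := two_mul_T_even hm
    omega
  · have := two_mul_T_odd hm
    omega

theorem iter_ne_zero {m : ℤ} (h : m ≠ 0) (i : ℕ) : T^[i] m ≠ 0 := by
  induction i with
  | zero => exact h
  | succ i ih =>
    rw [iterate_succ_apply']
    exact T_ne_zero ih

theorem card_O (n : ℤ) : (O n).card = minimalPeriod T n := by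
  rw [O, Finset.card_image_of_injOn, Finset.card_range]
  intro i hi j hj h
  exact iterate_injOn_Iio_minimalPeriod (Set.mem_Iio.2 (Finset.mem_range.1 hi))
    (Set.mem_Iio.2 (Finset.mem_range.1 hj)) h

theorem coe_O {n : ℤ} (hn : n ∈ periodicPts T) : (O n : Set ℤ) = Set.range fun i : ℕ => T^[i] n := by
  ext m
  simp only [O, Finset.coe_image, Set.mem_image, Finset.mem_coe, Finset.mem_range, Set.mem_range]
  constructor
  · rintro ⟨i, _, h⟩
    exact ⟨i, h⟩
  · rintro ⟨i, h⟩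
    refine ⟨i % minimalPeriod T n, Nat.mod_lt _ (minimalPeriod_pos_of_mem_periodicPts hn), ?_⟩
    rw [iterate_mod_minimalPeriod_eq, h]

theorem mem_O {n : ℤ} (hn : n ∈ periodicPts T) {m : ℤ} : m ∈ O n ↔ ∃ i : ℕ, T^[i] n = m := by
  rw [← Finset.mem_coe, coe_O hn]
  exact Iff.rfl

theorem O_periodic {n : ℤ} (hn : n ∈ periodicPts T) {m : ℤ} (hm : m ∈ O n) :
    m ∈ periodicPts T := by
  obtain ⟨i, rfl⟩ := (mem_O hn).1 hm
  exact iter_mem i hn

theorem O_ne_zero {n : ℤ} (hn : n ∈ periodicPts T) (h0 : n ≠ 0) {m : ℤ} (hm : m ∈ O n) :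
    m ≠ 0 := by
  obtain ⟨i, rfl⟩ := (mem_O hn).1 hm
  exact iter_ne_zero h0 i

theorem injOn_O {n : ℤ} (hn : n ∈ periodicPts T) : Set.InjOn T (O n : Set ℤ) := by
  intro a ha b hb h
  exact (iter_injOn 1) (O_periodic hn ha) (O_periodic hn hb) h

theorem image_O {n : ℤ} (hn : n ∈ periodicPts T) : (O n).image T = O n := by
  apply Finset.eq_of_subset_of_card_le
  · intro m hm
    obtain ⟨a, ha, rfl⟩ := Finset.mem_image.1 hm
    obtain ⟨i, rfl⟩ := (mem_O hn).1 ha
    exact (mem_O hn).2 ⟨i + 1, by rw [iterate_succ_apply']⟩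
  · rw [Finset.card_image_of_injOn (injOn_O hn)]

theorem self_mem_O {n : ℤ} (hn : n ∈ periodicPts T) : n ∈ O n := (mem_O hn).2 ⟨0, rfl⟩

/-- Two cycles with a common member are equal. -/
theorem O_eq_of_mem {n m : ℤ} (hn : n ∈ periodicPts T) (hm : m ∈ O n) : O m = O n := by
  have hmp := O_periodic hn hm
  obtain ⟨i, hi⟩ := (mem_O hn).1 hm
  obtain ⟨k, hk0, hk⟩ := hn
  have hn : n ∈ periodicPts T := ⟨k, hk0, hk⟩
  ext a
  rw [mem_O hmp, mem_O hn]
  constructor
  · rintro ⟨j, rfl⟩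
    exact ⟨j + i, by rw [iterate_add_apply, hi]⟩
  · rintro ⟨j, rfl⟩
    have h1 : T^[k * i] n = n := by
      have := hk.const_mul i
      rw [mul_comm]
      exact this
    refine ⟨j + (k * i - i), ?_⟩
    rw [← hi, ← iterate_add_apply]
    have h2 : i ≤ k * i := Nat.le_mul_of_pos_left i hk0
    rw [show j + (k * i - i) + i = j + k * i by omega, iterate_add_apply, h1]

theorem abs_log_one_add {m : ℤ} (h : m ≠ 0) :
    |Real.log (1 + 1 / (3 * (m : ℝ)))| ≤ 1 / |(m : ℝ)| := by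
  have hm : (1 : ℝ) ≤ |(m : ℝ)| := by exact_mod_cast Int.one_le_abs h
  have hx : |(-(1 / (3 * (m : ℝ))))| = 1 / (3 * |(m : ℝ)|) := by
    rw [abs_neg, abs_div, abs_mul, abs_one]
    norm_num
  have hx1 : |(-(1 / (3 * (m : ℝ))))| ≤ 1 / 3 := by
    rw [hx]
    exact div_le_div_of_nonneg_left (by norm_num) (by norm_num) (by linarith)
  have h1 := Real.abs_log_sub_add_sum_range_le (x := -(1 / (3 * (m : ℝ))))
    (by linarith) 0
  simp only [Finset.range_zero, Finset.sum_empty, zero_add, sub_neg_eq_add, pow_one] at h1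
  refine h1.trans ?_
  rw [div_le_div_iff₀ (by linarith) (by linarith), hx]
  have h3 : 1 / (3 * |(m : ℝ)|) * |(m : ℝ)| = 1 / 3 := by
    field_simp
  rw [h3, ← hx]
  linarith

theorem log_T {m : ℤ} (h : m ≠ 0) : Real.log (T m) = Real.log m - Real.log 2 +
    (if m % 2 = 0 then 0 else Real.log 3 + Real.log (1 + 1 / (3 * (m : ℝ)))) := by
  have hm : (m : ℝ) ≠ 0 := by exact_mod_cast h
  by_cases he : m % 2 = 0
  · rw [if_pos he]
    have h1 : (T m : ℝ) = m / 2 := by
      have := two_mul_T_even he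
      have h2 : (2 : ℝ) * T m = m := by exact_mod_cast this
      linarith
    rw [h1, Real.log_div hm (by norm_num), add_zero]
  · rw [if_neg he]
    have h2 : (2 : ℝ) * T m = 3 * m + 1 := by exact_mod_cast two_mul_T_odd he
    have h3 : (T m : ℝ) = m / 2 * (3 * (1 + 1 / (3 * (m : ℝ)))) := by
      have : (T m : ℝ) = (3 * m + 1) / 2 := by linarith
      rw [this]
      field_simp
    have h4 : (1 + 1 / (3 * (m : ℝ))) ≠ 0 := by
      intro h0
      have h5 : (3 : ℝ) * m + 1 = 0 := by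
        field_simp at h0
        linarith
      have h6 : 3 * m + 1 = 0 := by exact_mod_cast h5
      omega
    rw [h3, Real.log_mul (by positivity) (by positivity), Real.log_div hm (by norm_num),
      Real.log_mul (by norm_num) h4]

/-- The linear form of a cycle is a sum over its odd members. -/
theorem lam_O {n : ℤ} (hn : n ∈ periodicPts T) (h0 : n ≠ 0) :
    lam (O n) = ∑ m ∈ od (O n), Real.log (1 + 1 / (3 * (m : ℝ))) := by
  have h1 : ∑ m ∈ O n, Real.log (T m) = ∑ m ∈ O n, Real.log (m : ℝ) := by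
    conv_rhs => rw [← image_O hn]
    rw [Finset.sum_image (injOn_O hn)]
  have h2 : ∑ m ∈ O n, Real.log (T m) = ∑ m ∈ O n, (Real.log (m : ℝ) - Real.log 2 +
      (if m % 2 = 0 then 0 else Real.log 3 + Real.log (1 + 1 / (3 * (m : ℝ))))) :=
    Finset.sum_congr rfl fun m hm => log_T (O_ne_zero hn h0 hm)
  rw [h2, Finset.sum_add_distrib, Finset.sum_sub_distrib, Finset.sum_const, nsmul_eq_mul] at h1
  have h3 : ∑ m ∈ O n, (if m % 2 = 0 then 0 else
      Real.log 3 + Real.log (1 + 1 / (3 * (m : ℝ)))) =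
      ∑ m ∈ od (O n), (Real.log 3 + Real.log (1 + 1 / (3 * (m : ℝ)))) := by
    rw [od, Finset.sum_filter]
    refine Finset.sum_congr rfl fun m _ => ?_
    by_cases he : m % 2 = 0
    · rw [if_pos he, if_neg (not_not.2 he)]
    · rw [if_neg he, if_pos he]
  rw [h3, Finset.sum_add_distrib, Finset.sum_const, nsmul_eq_mul] at h1
  rw [lam]
  linarith

theorem rpow_sum_le {ι : Type*} (F : Finset ι) (f : ι → ℝ) (hf : ∀ i ∈ F, 0 ≤ f i) {s : ℝ}
    (hs0 : 0 < s) (hs1 : s ≤ 1) : (∑ i ∈ F, f i) ^ s ≤ ∑ i ∈ F, f i ^ s := by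
  classical
  induction F using Finset.induction_on with
  | empty => simp [Real.zero_rpow hs0.ne']
  | insert a F ha ih =>
    rw [Finset.sum_insert ha, Finset.sum_insert ha]
    have h1 : 0 ≤ f a := hf a (Finset.mem_insert_self a F)
    have h2 : ∀ i ∈ F, 0 ≤ f i := fun i hi => hf i (Finset.mem_insert_of_mem hi)
    have h3 := Real.rpow_add_le_add_rpow h1 (Finset.sum_nonneg h2) hs0.le hs1
    linarith [ih h2]

/-- The linear form of a cycle is at most the sum of `|m| ^ (-s)`. -/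
theorem lam_rpow_le {n : ℤ} (hn : n ∈ periodicPts T) (h0 : n ≠ 0) {s : ℝ} (hs0 : 0 < s)
    (hs1 : s ≤ 1) : |lam (O n)| ^ s ≤ ∑ m ∈ O n, |(m : ℝ)| ^ (-s) := by
  have h1 : |lam (O n)| ≤ ∑ m ∈ od (O n), 1 / |(m : ℝ)| := by
    rw [lam_O hn h0]
    refine (Finset.abs_sum_le_sum_abs _ _).trans (Finset.sum_le_sum fun m hm => ?_)
    exact abs_log_one_add (O_ne_zero hn h0 (Finset.mem_filter.1 hm).1)
  have h2 : ∑ m ∈ od (O n), 1 / |(m : ℝ)| ≤ ∑ m ∈ O n, 1 / |(m : ℝ)| :=
    Finset.sum_le_sum_of_subset_of_nonneg (Finset.filter_subset _ _)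
      fun m _ _ => by positivity
  calc |lam (O n)| ^ s ≤ (∑ m ∈ O n, 1 / |(m : ℝ)|) ^ s :=
        Real.rpow_le_rpow (abs_nonneg _) (h1.trans h2) hs0.le
    _ ≤ ∑ m ∈ O n, (1 / |(m : ℝ)|) ^ s :=
        rpow_sum_le _ _ (fun m _ => by positivity) hs0 hs1
    _ = ∑ m ∈ O n, |(m : ℝ)| ^ (-s) := by
        refine Finset.sum_congr rfl fun m _ => ?_
        rw [one_div, Real.inv_rpow (abs_nonneg _), Real.rpow_neg (abs_nonneg _)]

end Pool.Agent.helper63.CL
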