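import Pool.Agent.helper63.CL.Sum
import Pool.Agent.helper63.CL.Orbit

/-!
# The number of cycles whose linear form is not small
-/

set_option autoImplicit false

namespace Pool.Agent.helper63.CL

open Pool.Agent.helper62.Col Function

/-- `c` is a cycle of the 3x+1 map on the integers. -/
def Cyc (c : Finset ℤ) : Prop :=
  ∃ n ∈ periodicPts T, (c : Set ℤ) = Set.range fun i : ℕ => T^[i] n

theorem Cyc.eq_O {c : Finset ℤ} (h : Cyc c) : ∃ n ∈ periodicPts T, c = O n := by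
  obtain ⟨n, hn, h⟩ := h
  exact ⟨n, hn, Finset.coe_injective (h.trans (coe_O hn).symm)⟩

theorem cyc_O {n : ℤ} (hn : n ∈ periodicPts T) : Cyc (O n) := ⟨n, hn, coe_O hn⟩

theorem Cyc.eq_O_of_mem {c : Finset ℤ} (h : Cyc c) {m : ℤ} (hm : m ∈ c) : c = O m := by
  obtain ⟨n, hn, rfl⟩ := h.eq_O
  exact (O_eq_of_mem hn hm).symm

theorem zero_orbit (i : ℕ) : T^[i] 0 = 0 := by
  induction i with
  | zero => rfl
  | succ i ih =>
    rw [iterate_succ_apply', ih]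
    rfl

theorem Cyc.zero_mem {c : Finset ℤ} (h : Cyc c) (h0 : (0 : ℤ) ∈ c) : c = {0} := by
  obtain ⟨n, hn, h1⟩ := h.eq_O
  have h2 := h.eq_O_of_mem h0
  have h3 : (0 : ℤ) ∈ periodicPts T := by
    rw [h1] at h0
    exact O_periodic hn h0
  rw [h2]
  ext m
  rw [mem_O h3, Finset.mem_singleton]
  constructor
  · rintro ⟨i, rfl⟩
    exact zero_orbit i
  · rintro rfl
    exact ⟨0, rfl⟩

theorem lam_zero : lam {0} = Real.log 2 := by
  have : od {0} = ∅ := by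
    refine Finset.filter_eq_empty_iff.2 fun m hm => ?_
    rw [Finset.mem_singleton.1 hm]
    decide
  rw [lam, this]
  simp

theorem core {s S : ℝ} (hs0 : 0 < s) (hs1 : s ≤ 1) (hS : ∀ G : Finset ℤ,
    (∀ n ∈ G, n ∈ periodicPts T ∧ n ≠ 0) → ∑ n ∈ G, |(n : ℝ)| ^ (-s) ≤ S) {δ : ℝ}
    (hδ : 0 < δ) (F : Finset (Finset ℤ)) (hF : ∀ c ∈ F, Cyc c ∧ (0 : ℤ) ∉ c ∧ δ ≤ |lam c|) :
    (F.card : ℝ) * δ ^ s ≤ S := by
  have hdisj : (F : Set (Finset ℤ)).PairwiseDisjoint id := by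
    intro c hc c' hc' hne
    rw [Function.onFun, id, id, Finset.disjoint_left]
    intro m hm hm'
    exact hne (((hF c hc).1.eq_O_of_mem hm).trans ((hF c' hc').1.eq_O_of_mem hm').symm)
  calc (F.card : ℝ) * δ ^ s = ∑ c ∈ F, δ ^ s := by rw [Finset.sum_const, nsmul_eq_mul]
    _ ≤ ∑ c ∈ F, ∑ m ∈ c, |(m : ℝ)| ^ (-s) := by
        refine Finset.sum_le_sum fun c hc => ?_
        obtain ⟨h1, h2, h3⟩ := hF c hc
        obtain ⟨n, hn, rfl⟩ := h1.eq_O
        have h0 : n ≠ 0 := by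
          rintro rfl
          exact h2 (self_mem_O hn)
        exact (Real.rpow_le_rpow hδ.le h3 hs0.le).trans (lam_rpow_le hn h0 hs0 hs1)
    _ = ∑ m ∈ F.biUnion id, |(m : ℝ)| ^ (-s) := by
        rw [Finset.sum_biUnion hdisj]
        rfl
    _ ≤ S := by
        refine hS _ fun m hm => ?_
        obtain ⟨c, hc, hmc⟩ := Finset.mem_biUnion.1 hm
        obtain ⟨h1, h2, h3⟩ := hF c hc
        obtain ⟨n, hn, rfl⟩ := h1.eq_O
        refine ⟨O_periodic hn hmc, ?_⟩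
        rintro rfl
        exact h2 hmc

/-- There are at most `C δ ^ (-s)` cycles whose linear form is at least `δ`. -/
theorem count_cycles (s : ℝ) (hs : kap < s) (hs1 : s ≤ 1) : ∃ C : ℝ, 0 < C ∧ ∀ δ : ℝ, 0 < δ →
    {c : Finset ℤ | Cyc c ∧ δ ≤ |lam c|}.Finite ∧
    (({c : Finset ℤ | Cyc c ∧ δ ≤ |lam c|}.ncard : ℕ) : ℝ) ≤ C * δ ^ (-s) := by
  obtain ⟨S, hS0, hS⟩ := sum_periodic s hs
  have hs0 : 0 < s := kap_pos.trans hs
  refine ⟨S + 1, by linarith, fun δ hδ => ?_⟩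
  set A : Set (Finset ℤ) := {c : Finset ℤ | Cyc c ∧ (0 : ℤ) ∉ c ∧ δ ≤ |lam c|} with hA
  have hδs : 0 < δ ^ s := by positivity
  have hcard : ∀ F : Finset (Finset ℤ), (F : Set (Finset ℤ)) ⊆ A → (F.card : ℝ) ≤ S * δ ^ (-s) := by
    intro F hF
    have h := core hs0 hs1 hS hδ F fun c hc => hF hc
    rw [Real.rpow_neg hδ.le, ← div_eq_mul_inv, le_div_iff₀ hδs]
    exact h
  have hfin : A.Finite := by
    by_contra hinf
    obtain ⟨F, hF, hFc⟩ := (Set.not_finite.1 hinf : A.Infinite).exists_subset_card_eq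
      (⌊S * δ ^ (-s)⌋₊ + 1)
    have h1 := hcard F hF
    rw [hFc] at h1
    push_cast at h1
    linarith [Nat.lt_floor_add_one (S * δ ^ (-s))]
  have hsub : {c : Finset ℤ | Cyc c ∧ δ ≤ |lam c|} ⊆
      A ∪ {c | c = {0} ∧ δ ≤ Real.log 2} := by
    rintro c ⟨h1, h2⟩
    by_cases h0 : (0 : ℤ) ∈ c
    · right
      have h3 := h1.zero_mem h0
      refine ⟨h3, ?_⟩
      rwa [h3, lam_zero, abs_of_pos (Real.log_pos (by norm_num))] at h2
    · exact Or.inl ⟨h1, h0, h2⟩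
  have hfin2 : {c : Finset ℤ | c = {0} ∧ δ ≤ Real.log 2}.Finite :=
    (Set.finite_singleton ({0} : Finset ℤ)).subset fun c hc => hc.1
  have hfin3 := hfin.union hfin2
  refine ⟨hfin3.subset hsub, ?_⟩
  have h1 : (A.ncard : ℝ) ≤ S * δ ^ (-s) := by
    rw [Set.ncard_eq_toFinset_card A hfin]
    exact hcard _ (by rw [Set.Finite.coe_toFinset])
  have h2 : (({c : Finset ℤ | c = {0} ∧ δ ≤ Real.log 2}.ncard : ℕ) : ℝ) ≤ δ ^ (-s) := by
    by_cases hd : δ ≤ Real.log 2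
    · have h3 : ({c : Finset ℤ | c = {0} ∧ δ ≤ Real.log 2}.ncard : ℕ) ≤ 1 :=
        (Set.ncard_le_ncard (fun c hc => hc.1) (Set.finite_singleton ({0} : Finset ℤ))).trans
          (Set.ncard_singleton _).le
      have h4 : (1 : ℝ) ≤ δ ^ (-s) :=
        Real.one_le_rpow_of_pos_of_le_one_of_nonpos hδ
          (hd.trans (by linarith [Real.log_two_lt_d9])) (by linarith)
      exact le_trans (by exact_mod_cast h3) h4
    · have h3 : {c : Finset ℤ | c = {0} ∧ δ ≤ Real.log 2} = ∅ := by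
        ext c
        simp only [Set.mem_ofPred_eq, Set.mem_empty_iff_false, iff_false]
        exact fun h => hd h.2
      rw [h3, Set.ncard_empty, Nat.cast_zero]
      positivity
  calc (({c : Finset ℤ | Cyc c ∧ δ ≤ |lam c|}.ncard : ℕ) : ℝ)
      ≤ ((A ∪ {c | c = {0} ∧ δ ≤ Real.log 2}).ncard : ℕ) := by
        exact_mod_cast Set.ncard_le_ncard hsub hfin3
    _ ≤ (A.ncard : ℝ) + (({c : Finset ℤ | c = {0} ∧ δ ≤ Real.log 2}.ncard : ℕ) : ℝ) := by
        exact_mod_cast Set.ncard_union_le _ _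
    _ ≤ S * δ ^ (-s) + δ ^ (-s) := add_le_add h1 h2
    _ = (S + 1) * δ ^ (-s) := by ring

end Pool.Agent.helper63.CL
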