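import Pool.Agent.helper63.CL.Count
import Pool.Agent.helper63.CL.Form

/-!
# The lengths of the cycles of the 3x+1 map
-/

set_option autoImplicit false

namespace Pool.Agent.helper63.CL

open Pool.Agent.helper62.Col Function

/-- The integers `k ≤ X` for which `k log 2` is within `δ` of a multiple of `log 3`. -/
theorem ncard_near {X δ : ℝ} (hX : 1 ≤ X) (hδ : 0 < δ) :
    {k : ℕ | (k : ℝ) ≤ X ∧ ∃ j : ℤ, |(k : ℝ) * Real.log 2 - j * Real.log 3| < δ}.Finite ∧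
    (({k : ℕ | (k : ℝ) ≤ X ∧
      ∃ j : ℤ, |(k : ℝ) * Real.log 2 - j * Real.log 3| < δ}.ncard : ℕ) : ℝ) ≤
      X * (2 * δ / c0) ^ ((23 : ℝ)⁻¹) + 1 := by
  set A : Set ℕ := {k : ℕ | (k : ℝ) ≤ X ∧
    ∃ j : ℤ, |(k : ℝ) * Real.log 2 - j * Real.log 3| < δ} with hA
  have hc0 := c0_pos
  set g : ℝ := (c0 / (2 * δ)) ^ ((23 : ℝ)⁻¹) with hg
  have hg0 : 0 < g := by positivity
  have hgap : ∀ k ∈ A, ∀ k' ∈ A, k < k' → g ≤ (k' : ℝ) - k := by
    rintro k ⟨_, j, hj⟩ k' ⟨_, j', hj'⟩ hlt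
    have hd : 1 ≤ k' - k := by omega
    have h1 := form_lower hd (j' - j)
    have h2 : |((k' - k : ℕ) : ℝ) * Real.log 2 - ((j' - j : ℤ) : ℝ) * Real.log 3| ≤ 2 * δ := by
      have e : ((k' - k : ℕ) : ℝ) * Real.log 2 - ((j' - j : ℤ) : ℝ) * Real.log 3 =
          ((k' : ℝ) * Real.log 2 - j' * Real.log 3) -
            ((k : ℝ) * Real.log 2 - j * Real.log 3) := by
        rw [Nat.cast_sub hlt.le]
        push_cast
        ring
      rw [e]
      have h3 := abs_sub ((k' : ℝ) * Real.log 2 - j' * Real.log 3)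
        ((k : ℝ) * Real.log 2 - j * Real.log 3)
      linarith
    have h3 := h1.trans h2
    have hdpos : (0 : ℝ) < ((k' - k : ℕ) : ℝ) := by exact_mod_cast hd
    rw [div_le_iff₀ (by positivity)] at h3
    have h4 : c0 / (2 * δ) ≤ ((k' - k : ℕ) : ℝ) ^ 23 := by
      rw [div_le_iff₀ (by positivity)]
      linarith
    have h5 : g ≤ (((k' - k : ℕ) : ℝ) ^ 23) ^ ((23 : ℝ)⁻¹) :=
      Real.rpow_le_rpow (by positivity) h4 (by positivity)
    have h6 : (((k' - k : ℕ) : ℝ) ^ 23) ^ ((23 : ℝ)⁻¹) = ((k' - k : ℕ) : ℝ) := by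
      have := Real.pow_rpow_inv_natCast (x := ((k' - k : ℕ) : ℝ)) hdpos.le
        (n := 23) (by norm_num)
      exact_mod_cast this
    rw [h6, Nat.cast_sub hlt.le] at h5
    exact h5
  have hinj : Set.InjOn (fun k : ℕ => ⌊(k : ℝ) / g⌋₊) A := by
    have key : ∀ k ∈ A, ∀ k' ∈ A, k < k' → ⌊(k : ℝ) / g⌋₊ ≠ ⌊(k' : ℝ) / g⌋₊ := by
      intro k hk k' hk' hlt he
      have h1 := hgap k hk k' hk' hlt
      have h2 : (k : ℝ) / g + 1 ≤ (k' : ℝ) / g := by
        rw [div_add_one hg0.ne', div_le_div_iff_of_pos_right hg0]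
        linarith
      have h3 : ⌊(k : ℝ) / g⌋₊ + 1 ≤ ⌊(k' : ℝ) / g⌋₊ := by
        rw [Nat.le_floor_iff (by positivity)]
        push_cast
        have := Nat.floor_le (a := (k : ℝ) / g) (by positivity)
        linarith
      omega
    intro k hk k' hk' he
    rcases lt_trichotomy k k' with h | h | h
    · exact absurd he (key k hk k' hk' h)
    · exact h
    · exact absurd he.symm (key k' hk' k hk h)
  have hmaps : Set.MapsTo (fun k : ℕ => ⌊(k : ℝ) / g⌋₊) A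
      (Finset.range (⌊X / g⌋₊ + 1) : Set ℕ) := by
    intro k hk
    rw [Finset.mem_coe, Finset.mem_range, Nat.lt_succ_iff]
    exact Nat.floor_le_floor (div_le_div_of_nonneg_right hk.1 hg0.le)
  have hfin : A.Finite := Set.Finite.of_injOn hmaps hinj (Finset.finite_toSet _)
  refine ⟨hfin, ?_⟩
  have h1 : A.ncard ≤ ⌊X / g⌋₊ + 1 := by
    have := Set.ncard_le_ncard_of_injOn _ (fun k hk => hmaps hk) hinj (Finset.finite_toSet _)
    rwa [Set.ncard_coe_finset, Finset.card_range] at this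
  have h2 : (A.ncard : ℝ) ≤ X / g + 1 := by
    have h3 : (A.ncard : ℝ) ≤ (⌊X / g⌋₊ : ℝ) + 1 := by exact_mod_cast h1
    have := Nat.floor_le (a := X / g) (by positivity)
    linarith
  have h3 : X / g = X * (2 * δ / c0) ^ ((23 : ℝ)⁻¹) := by
    rw [hg, div_eq_mul_inv, ← Real.inv_rpow (by positivity), inv_div]
  rw [← h3]
  exact h2

/-- At most `C X ^ (23 s / (23 s + 1))` integers `k ≤ X` are lengths of cycles. -/
theorem lengths (s : ℝ) (hs : kap < s) (hs1 : s ≤ 1) : ∃ C : ℝ, 0 < C ∧ ∀ X : ℝ, 1 ≤ X →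
    (({k : ℕ | (k : ℝ) ≤ X ∧ ∃ n ∈ periodicPts T, minimalPeriod T n = k}.ncard : ℕ) : ℝ) ≤
      C * X ^ (23 * s / (23 * s + 1)) := by
  obtain ⟨C, hC, h⟩ := count_cycles s hs hs1
  have hs0 : 0 < s := kap_pos.trans hs
  have hc0 := c0_pos
  refine ⟨C + (2 / c0) ^ ((23 : ℝ)⁻¹) + 1, by positivity, fun X hX => ?_⟩
  have hX0 : 0 < X := by linarith
  set t : ℝ := 23 * s / (23 * s + 1) with ht
  have ht0 : 0 < t := by positivity
  set δ : ℝ := X ^ (-(23 / (23 * s + 1))) with hδ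
  have hδ0 : 0 < δ := by positivity
  obtain ⟨hf, hn⟩ := h δ hδ0
  obtain ⟨hf2, hn2⟩ := ncard_near hX hδ0
  set A : Set (Finset ℤ) := {c : Finset ℤ | Cyc c ∧ δ ≤ |lam c|} with hA
  set B : Set ℕ := {k : ℕ | (k : ℝ) ≤ X ∧
    ∃ j : ℤ, |(k : ℝ) * Real.log 2 - j * Real.log 3| < δ} with hB
  have hsub : {k : ℕ | (k : ℝ) ≤ X ∧ ∃ n ∈ periodicPts T, minimalPeriod T n = k} ⊆
      (Finset.card '' A) ∪ B := by
    rintro k ⟨hk, n, hn, hk'⟩
    by_cases hd : δ ≤ |lam (O n)|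
    · exact Or.inl ⟨O n, ⟨cyc_O hn, hd⟩, by rw [card_O, hk']⟩
    · right
      refine ⟨hk, (od (O n)).card, ?_⟩
      rw [lam, card_O, hk'] at hd
      push Not at hd
      exact_mod_cast hd
  have h1 : C * δ ^ (-s) = C * X ^ t := by
    rw [hδ, ← Real.rpow_mul hX0.le, ht]
    congr 2
    ring
  have h2 : X * (2 * δ / c0) ^ ((23 : ℝ)⁻¹) = (2 / c0) ^ ((23 : ℝ)⁻¹) * X ^ t := by
    have e1 : 2 * δ / c0 = 2 / c0 * δ := by ring
    have e2 : X * δ ^ ((23 : ℝ)⁻¹) = X ^ t := by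
      rw [hδ, ← Real.rpow_mul hX0.le]
      nth_rewrite 1 [← Real.rpow_one X]
      rw [← Real.rpow_add hX0, ht]
      congr 1
      field_simp
      ring
    rw [e1, Real.mul_rpow (by positivity) hδ0.le, ← e2]
    ring
  have h3 : (1 : ℝ) ≤ X ^ t := Real.one_le_rpow hX ht0.le
  have h4 : (((Finset.card '' A) ∪ B).ncard : ℝ) ≤ (A.ncard : ℝ) + B.ncard := by
    have h5 := Set.ncard_union_le (Finset.card '' A) B
    have h6 := Set.ncard_image_le (f := Finset.card) hf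
    exact_mod_cast h5.trans (Nat.add_le_add_right h6 _)
  calc (({k : ℕ | (k : ℝ) ≤ X ∧ ∃ n ∈ periodicPts T, minimalPeriod T n = k}.ncard : ℕ) : ℝ)
      ≤ (((Finset.card '' A) ∪ B).ncard : ℝ) := by
        exact_mod_cast Set.ncard_le_ncard hsub ((hf.image _).union hf2)
    _ ≤ (A.ncard : ℝ) + B.ncard := h4
    _ ≤ C * X ^ t + ((2 / c0) ^ ((23 : ℝ)⁻¹) * X ^ t + 1) := by
        rw [← h1, ← h2]
        exact add_le_add hn hn2
    _ ≤ (C + (2 / c0) ^ ((23 : ℝ)⁻¹) + 1) * X ^ t := by linarith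

/-- At most `C k ^ 23` integers are periodic with period at most `k`. -/
theorem period_poly : ∃ C : ℝ, 0 < C ∧ ∀ k : ℕ, 1 ≤ k →
    {n : ℤ | n ∈ periodicPts T ∧ minimalPeriod T n ≤ k}.Finite ∧
    (({n : ℤ | n ∈ periodicPts T ∧ minimalPeriod T n ≤ k}.ncard : ℕ) : ℝ) ≤
      C * (k : ℝ) ^ 23 := by
  obtain ⟨C, hC, h⟩ := count_cycles (19 / 20) kap_lt (by norm_num)
  have hc0 := c0_pos
  refine ⟨C * c0 ^ (-(19 / 20 : ℝ)), by positivity, fun k hk => ?_⟩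
  have hk1 : (1 : ℝ) ≤ k := by exact_mod_cast hk
  have hk0 : (0 : ℝ) < k := by linarith
  set δ : ℝ := c0 / (k : ℝ) ^ 23 with hδ
  have hδ0 : 0 < δ := by positivity
  obtain ⟨hf, hn⟩ := h δ hδ0
  set A : Set (Finset ℤ) := {c : Finset ℤ | Cyc c ∧ δ ≤ |lam c|} with hA
  set F : Finset (Finset ℤ) := hf.toFinset.filter fun c => c.card ≤ k with hF
  have hsub : {n : ℤ | n ∈ periodicPts T ∧ minimalPeriod T n ≤ k} ⊆
      (F.biUnion id : Finset ℤ) := by
    rintro n ⟨hnp, hdk⟩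
    have hd1 : 1 ≤ minimalPeriod T n := minimalPeriod_pos_of_mem_periodicPts hnp
    rw [Finset.mem_coe, Finset.mem_biUnion]
    refine ⟨O n, ?_, self_mem_O hnp⟩
    rw [hF, Finset.mem_filter, Set.Finite.mem_toFinset]
    refine ⟨⟨cyc_O hnp, ?_⟩, by rw [card_O]; exact hdk⟩
    have h1 := form_lower hd1 ((od (O n)).card : ℤ)
    rw [Int.cast_natCast, ← card_O] at h1
    refine le_trans ?_ h1
    rw [hδ, card_O]
    have h2 : (1 : ℝ) ≤ (minimalPeriod T n : ℝ) := by exact_mod_cast hd1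
    have h3 : (minimalPeriod T n : ℝ) ≤ k := by exact_mod_cast hdk
    refine div_le_div_of_nonneg_left hc0.le (by positivity) ?_
    gcongr
  refine ⟨(Finset.finite_toSet _).subset hsub, ?_⟩
  have h1 : {n : ℤ | n ∈ periodicPts T ∧ minimalPeriod T n ≤ k}.ncard ≤ k * A.ncard := by
    calc {n : ℤ | n ∈ periodicPts T ∧ minimalPeriod T n ≤ k}.ncard
        ≤ (F.biUnion id : Finset ℤ).card := by
          rw [← Set.ncard_coe_finset]
          exact Set.ncard_le_ncard hsub (Finset.finite_toSet _)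
      _ ≤ ∑ c ∈ F, c.card := Finset.card_biUnion_le
      _ ≤ ∑ c ∈ F, k := Finset.sum_le_sum fun c hc => (Finset.mem_filter.1 hc).2
      _ = F.card * k := by rw [Finset.sum_const, smul_eq_mul]
      _ ≤ A.ncard * k := by
          refine Nat.mul_le_mul_right k ?_
          rw [Set.ncard_eq_toFinset_card A hf]
          exact Finset.card_le_card (Finset.filter_subset _ _)
      _ = k * A.ncard := mul_comm _ _
  have h2 : (({n : ℤ | n ∈ periodicPts T ∧ minimalPeriod T n ≤ k}.ncard : ℕ) : ℝ) ≤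
      k * (C * δ ^ (-(19 / 20 : ℝ))) := by
    refine le_trans (by exact_mod_cast h1 : _ ≤ (k : ℝ) * A.ncard) ?_
    gcongr
  refine h2.trans ?_
  have e1 : δ ^ (-(19 / 20 : ℝ)) = c0 ^ (-(19 / 20 : ℝ)) * (k : ℝ) ^ ((437 : ℝ) / 20) := by
    rw [hδ, Real.div_rpow hc0.le (by positivity), div_eq_mul_inv,
      ← Real.rpow_neg (by positivity), ← Real.rpow_natCast, ← Real.rpow_mul hk0.le]
    norm_num
  have e2 : (k : ℝ) * (k : ℝ) ^ ((437 : ℝ) / 20) ≤ (k : ℝ) ^ 23 := by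
    nth_rewrite 1 [← Real.rpow_one (k : ℝ)]
    rw [← Real.rpow_add hk0, ← Real.rpow_natCast]
    exact Real.rpow_le_rpow_of_exponent_le hk1 (by norm_num)
  rw [e1]
  calc (k : ℝ) * (C * (c0 ^ (-(19 / 20 : ℝ)) * (k : ℝ) ^ ((437 : ℝ) / 20)))
      = C * c0 ^ (-(19 / 20 : ℝ)) * ((k : ℝ) * (k : ℝ) ^ ((437 : ℝ) / 20)) := by ring
    _ ≤ C * c0 ^ (-(19 / 20 : ℝ)) * (k : ℝ) ^ 23 := by gcongr

end Pool.Agent.helper63.CL
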