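import Pool.Agent.helper62.Col.Asym

/-!
# The sum of `|n| ^ (-s)` over the nonzero periodic integers of the 3x+1 map
-/

set_option autoImplicit false

namespace Pool.Agent.helper63.CL

open Pool.Agent.helper62.Col

/-- Finite sums of `|n| ^ (-s)` over nonzero periodic integers are bounded. -/
theorem sum_periodic (s : ℝ) (hs : kap < s) : ∃ S : ℝ, 0 < S ∧ ∀ G : Finset ℤ,
    (∀ n ∈ G, n ∈ Function.periodicPts T ∧ n ≠ 0) → ∑ n ∈ G, |(n : ℝ)| ^ (-s) ≤ S := by
  set s' : ℝ := (kap + s) / 2 with hs'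
  have h1 : kap < s' := by rw [hs']; linarith
  have h2 : s' < s := by rw [hs']; linarith
  obtain ⟨C, hC, hcount⟩ := count_real s' h1
  have hk := kap_pos
  have hs0 : 0 < s := by linarith
  set r : ℝ := (2 : ℝ) ^ (s' - s) with hr
  have hr0 : 0 < r := by positivity
  have hr1 : r < 1 := Real.rpow_lt_one_of_one_lt_of_neg (by norm_num) (by linarith)
  have h1r : 0 < 1 - r := by linarith
  refine ⟨C * (2 : ℝ) ^ s' * (1 / (1 - r)), by positivity, fun G hG => ?_⟩
  let l : ℤ → ℕ := fun n => Nat.log 2 n.natAbs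
  have hmaps : ∀ n ∈ G, l n ∈ Finset.range (G.sup l + 1) := fun n hn =>
    Finset.mem_range.2 (Nat.lt_succ_of_le (Finset.le_sup hn))
  rw [← Finset.sum_fiberwise_of_maps_to hmaps]
  have hterm : ∀ i ∈ Finset.range (G.sup l + 1),
      ∑ n ∈ G.filter (fun n => l n = i), |(n : ℝ)| ^ (-s) ≤ C * (2 : ℝ) ^ s' * r ^ i := by
    intro i _
    have hb : ∀ n ∈ G.filter (fun n => l n = i), (2 : ℝ) ^ i ≤ |(n : ℝ)| ∧
        |(n : ℝ)| ≤ 2 ^ (i + 1) := by
      intro n hn
      obtain ⟨hnG, hni⟩ := Finset.mem_filter.1 hn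
      have h0 : n.natAbs ≠ 0 := Int.natAbs_ne_zero.2 (hG n hnG).2
      have e1 : 2 ^ i ≤ n.natAbs := by
        rw [← hni]
        exact Nat.pow_log_le_self 2 h0
      have e2 : n.natAbs < 2 ^ (i + 1) := by
        rw [← hni]
        exact Nat.lt_pow_succ_log_self (by norm_num) _
      have e3 : |(n : ℝ)| = (n.natAbs : ℝ) := by
        rw [Nat.cast_natAbs, Int.cast_abs]
      rw [e3]
      exact ⟨by exact_mod_cast e1, by exact_mod_cast e2.le⟩
    have hcard : ((G.filter (fun n => l n = i)).card : ℝ) ≤ C * ((2 : ℝ) ^ (i + 1)) ^ s' := by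
      refine le_trans ?_ (hcount ((2 : ℝ) ^ (i + 1)) (one_le_pow₀ (by norm_num)))
      rw [← Set.ncard_coe_finset]
      refine Nat.cast_le.2 (Set.ncard_le_ncard ?_ (PS_finite _))
      intro n hn
      have hn' := Finset.mem_coe.1 hn
      exact ⟨(hG n (Finset.mem_filter.1 hn').1).1, (hb n hn').2⟩
    calc ∑ n ∈ G.filter (fun n => l n = i), |(n : ℝ)| ^ (-s)
        ≤ ∑ n ∈ G.filter (fun n => l n = i), ((2 : ℝ) ^ i) ^ (-s) := by
          refine Finset.sum_le_sum fun n hn => ?_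
          exact Real.rpow_le_rpow_of_nonpos (by positivity) (hb n hn).1 (by linarith)
      _ = ((G.filter (fun n => l n = i)).card : ℝ) * ((2 : ℝ) ^ i) ^ (-s) := by
          rw [Finset.sum_const, nsmul_eq_mul]
      _ ≤ C * ((2 : ℝ) ^ (i + 1)) ^ s' * ((2 : ℝ) ^ i) ^ (-s) := by gcongr
      _ = C * (2 : ℝ) ^ s' * r ^ i := by
          have e4 : ((2 : ℝ) ^ (i + 1)) ^ s' = (2 : ℝ) ^ s' * ((2 : ℝ) ^ i) ^ s' := by
            rw [pow_succ', Real.mul_rpow (by norm_num) (by positivity)]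
          have e5 : ((2 : ℝ) ^ i) ^ s' * ((2 : ℝ) ^ i) ^ (-s) = r ^ i := by
            rw [← Real.rpow_add (by positivity), ← sub_eq_add_neg, hr, ← Real.rpow_natCast,
              ← Real.rpow_natCast, ← Real.rpow_mul (by norm_num), ← Real.rpow_mul (by norm_num),
              mul_comm]
          rw [e4, ← e5]
          ring
  refine (Finset.sum_le_sum hterm).trans ?_
  rw [← Finset.mul_sum]
  refine mul_le_mul_of_nonneg_left ?_ (by positivity)
  rw [geom_sum_eq hr1.ne, ← neg_div_neg_eq, neg_sub, neg_sub]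
  refine div_le_div_of_nonneg_right ?_ h1r.le
  have : 0 < r ^ (G.sup l + 1) := by positivity
  linarith

end Pool.Agent.helper63.CL
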